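import Mathlib
import Pool.Agent.Q257.Afl.Main

/-!
# Monochromatic matchings in connectors

The asymptotic Alon-Frankl-Lovász theorem for `s`-connectors: for all `q ≥ 1`, `r ≥ 2` there is
`φ : (0, 1] → (0, ∞)` with `φ x → 0` as `x → 0` such that, if
`n ≥ (r - 1) ‖t‖_∞ + Λ_t + 1 + n φ (s / n)`, every `q`-colouring of the edges of an `r`-uniform
`s`-connector with `n` vertices has, for some `j`, `t j` pairwise disjoint edges of colour `j`.

Proof. (1) The theorem of Alon, Frankl and Lovász is proved for matching numbers `t j ≤ p`, `p` prime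
(files `Zp`, `Prime`, `Asym`: labellings of the chains of a poset with `ℤ/p` symmetry).
(2) File `Hole`, `Blk`: call `R_1 × ⋯ × R_r` a hole of colour `j` if no edge of colour `j` is a
transversal of it.  Take few holes, in several rounds, that cover almost all that holes of each colour
cover.  Splitting the vertices into the atoms of these and each atom into blocks of `m` vertices, all
but few `r`-tuples of blocks are robust for some colour: the whole tuple is no hole of all the colours
at once since the hypergraph is an `s`-connector, and a tuple of large subsets which is a hole is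
covered by the holes of the next round.
(3) File `Lp`, `Ext`: if the robust tuples of colour `j` have a large fractional matching, there is a
large matching of colour `j`.  Otherwise there is a small fractional cover for each colour `j`, and
it stays small on a random set of `k` blocks, in which all the `r`-tuples are robust (file `Smp`);
this contradicts (1).
-/

set_option autoImplicit false

namespace Pool.Agent.Results.MP_d738f8_co.ConnectorMatchings

open Filter Topology

/-- `H` is an `s`-connector: whenever `A i`, `i < r`, are pairwise disjoint sets with at least `s`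
vertices each, some edge `{v 0, ..., v (r - 1)}` has `v i ∈ A i` for all `i`. -/
def IsConnector {n : ℕ} (s r : ℕ) (H : Finset (Finset (Fin n))) : Prop :=
  ∀ A : Fin r → Finset (Fin n), (∀ i j, i ≠ j → Disjoint (A i) (A j)) → (∀ i, s ≤ (A i).card) →
    ∃ v : Fin r → Fin n, (∀ i, v i ∈ A i) ∧ Finset.univ.image v ∈ H

/-- For all `q ≥ 1`, `r ≥ 2` there is `φ`, positive on `(0, 1]` and with `φ x → 0` as `x → 0`, such
that for all `1 ≤ s ≤ n` and `t : Fin q → ℕ` with `t j ≥ 1` and
`(r - 1) max t + ∑ j, (t j - 1) + 1 + n φ (s / n) ≤ n`, for every `r`-uniform `s`-connector `H` on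
`n` vertices and every colouring with `q` colours there are a colour `j` and `t j` pairwise disjoint
edges of colour `j`. -/
theorem result (q r : ℕ) (hq : 1 ≤ q) (hr : 2 ≤ r) :
    ∃ φ : ℝ → ℝ, (∀ x, 0 < x → x ≤ 1 → 0 < φ x) ∧ Tendsto φ (𝓝[>] 0) (𝓝 0) ∧
      ∀ (n s : ℕ) (t : Fin q → ℕ), 1 ≤ s → s ≤ n → (∀ j, 1 ≤ t j) →
        ((r : ℝ) - 1) * (Finset.univ.sup t : ℕ) + ∑ j, ((t j : ℝ) - 1) + 1 +
          n * φ (s / n) ≤ n →
        ∀ H : Finset (Finset (Fin n)), (∀ e ∈ H, e.card = r) → IsConnector s r H →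
          ∀ col : Finset (Fin n) → Fin q, ∃ j : Fin q, ∃ M ⊆ H, M.card = t j ∧
            (∀ e ∈ M, col e = j) ∧ ∀ e ∈ M, ∀ e' ∈ M, e ≠ e' → Disjoint e e' := by
  classical
  let Good : ℝ → ℝ → Prop := fun ε x => 0 < ε ∧ ∀ (n s : ℕ) (t : Fin q → ℕ), 1 ≤ s →
    (∀ j, 1 ≤ t j) → (s : ℝ) / n = x → s ≤ n →
    ((r : ℝ) - 1) * (Finset.univ.sup t : ℕ) + ∑ j, ((t j : ℝ) - 1) + 1 + ε * n ≤ n →
    ∀ H : Finset (Finset (Fin n)), IsConnector s r H →
      ∀ col : Finset (Fin n) → Fin q, ∃ j : Fin q, ∃ M ⊆ H, M.card = t j ∧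
        (∀ e ∈ M, col e = j) ∧ ∀ e ∈ M, ∀ e' ∈ M, e ≠ e' → Disjoint e e'
  have hrr : (2 : ℝ) ≤ r := by exact_mod_cast hr
  have hbdd : ∀ x, BddBelow {ε | Good ε x} := fun x => ⟨0, fun ε hε => hε.1.le⟩
  have hone : ∀ x, Good 1 x := by
    intro x
    refine ⟨one_pos, ?_⟩
    intro n s t _ ht _ _ hineq
    exfalso
    have h1 : 0 ≤ ∑ j, ((t j : ℝ) - 1) := Finset.sum_nonneg fun j _ => by
      have : (1 : ℝ) ≤ t j := by exact_mod_cast ht j
      linarith
    have h2 : 0 ≤ ((r : ℝ) - 1) * (Finset.univ.sup t : ℕ) :=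
      mul_nonneg (by linarith) (Nat.cast_nonneg _)
    linarith
  have hmono : ∀ x ε ε', Good ε x → ε ≤ ε' → Good ε' x := by
    intro x ε ε' h hle
    refine ⟨h.1.trans_le hle, ?_⟩
    intro n s t hs ht hx hsn hineq
    refine h.2 n s t hs ht hx hsn ?_
    have : ε * (n : ℝ) ≤ ε' * n := mul_le_mul_of_nonneg_right hle (Nat.cast_nonneg _)
    linarith
  have hnn : ∀ x, 0 ≤ sInf {ε | Good ε x} := fun x => Real.sInf_nonneg fun ε hε => hε.1.le
  refine ⟨fun x => sInf {ε | Good ε x} + x, ?_, ?_, ?_⟩
  · intro x hx _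
    have := hnn x
    linarith
  · rw [Metric.tendsto_nhdsWithin_nhds]
    intro e he
    obtain ⟨δ, hδ, hmain⟩ := Q257.Afl.main_eps q r hq hr (min (e / 2) 1) (by positivity)
      (min_le_right _ _)
    refine ⟨min δ (e / 2), by positivity, ?_⟩
    intro x hx hxd
    have hx0 : 0 < x := hx
    rw [Real.dist_eq, sub_zero, abs_of_pos hx0] at hxd
    have hxδ : x < δ := hxd.trans_le (min_le_left _ _)
    have hxe : x < e / 2 := hxd.trans_le (min_le_right _ _)
    have hgood : Good (min (e / 2) 1) x := by
      refine ⟨by positivity, ?_⟩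
      intro n s t hs ht hsx hsn hineq H hH col
      have hn : (0 : ℝ) < n := by
        have : 0 < n := lt_of_lt_of_le hs hsn
        exact_mod_cast this
      refine hmain (Fin n) s H col t hs hH ht ?_ ?_
      · rw [Fintype.card_fin]
        rw [div_eq_iff hn.ne'] at hsx
        rw [hsx]
        exact mul_le_mul_of_nonneg_right hxδ.le hn.le
      · rw [Fintype.card_fin]
        exact hineq
    have h1 : sInf {ε | Good ε x} ≤ min (e / 2) 1 := csInf_le (hbdd x) hgood
    have h2 := min_le_left (e / 2) (1 : ℝ)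
    have h3 := hnn x
    rw [Real.dist_eq, sub_zero, abs_of_nonneg (by linarith)]
    linarith
  · intro n s t hs hsn ht hineq H _ hH col
    have hn : (0 : ℝ) < n := by
      have : 0 < n := lt_of_lt_of_le hs hsn
      exact_mod_cast this
    have hx : (0 : ℝ) < (s : ℝ) / n := by
      have : (0 : ℝ) < s := by exact_mod_cast hs
      positivity
    obtain ⟨ε, hε, hlt⟩ := exists_lt_of_csInf_lt ⟨1, hone ((s : ℝ) / n)⟩
      (show sInf {ε | Good ε ((s : ℝ) / n)} < sInf {ε | Good ε ((s : ℝ) / n)} + (s : ℝ) / n by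
        linarith)
    have h1 : ε * (n : ℝ) ≤ n * (sInf {ε | Good ε ((s : ℝ) / n)} + (s : ℝ) / n) := by
      rw [mul_comm]
      exact mul_le_mul_of_nonneg_left hlt.le hn.le
    exact hε.2 n s t hs ht rfl hsn (by
      simp only at hineq
      linarith) H hH col

end Pool.Agent.Results.MP_d738f8_co.ConnectorMatchings
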